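import Pool.Agent.H41.Peps6

open Pool.Agent.H41.Peps Filter Topology

theorem Pool.Agent.Results.MP_0f69bf_mp.LocalPeps.result
    (d : ℕ) (hd : 2 ≤ d) (R : Finset (ℕ × ℕ)) (ε : ℝ) (hε : 0 < ε) :
    ∃ D L₁ : ℕ, ∀ (S : Finset (ℕ × ℕ)) (h : (S → Fin d) → (S → Fin d) → ℂ),
      (∀ L₀ ≥ L₁, ∀ Ψ : St d L₀, SimpleEig h L₀ Ψ →
        ∃ A : Fin d → Fin D → Fin D → Fin D → Fin D → ℂ, ∀ L ≥ L₁,
          peps A L ≠ 0 ∧ dist1 (rdm R Ψ) (rdm R (peps A L)) ≤ ε) ∧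
      ∀ Ψ : ∀ L, St d L, (∀ᶠ L in atTop, SimpleEig h L (Ψ L)) →
        ∀ ρ : (R → Fin d) → (R → Fin d) → ℂ,
          (Tendsto (fun L => rdm R (Ψ L)) atTop (𝓝 ρ) →
            ∃ A : Fin d → Fin D → Fin D → Fin D → Fin D → ℂ, ∀ᶠ L in atTop,
              peps A L ≠ 0 ∧ dist1 (rdm R (Ψ L)) (rdm R (peps A L)) ≤ ε) ∧
          ∀ δ : ℝ, (∀ᶠ L in atTop, dist1 (rdm R (Ψ L)) ρ ≤ δ) →
            ∃ A : Fin d → Fin D → Fin D → Fin D → Fin D → ℂ, ∀ᶠ L in atTop,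
              peps A L ≠ 0 ∧ dist1 (rdm R (Ψ L)) (rdm R (peps A L)) ≤ ε + 2 * δ :=
  main d hd R ε hε
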